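import Pool.Agent.Q261.DR.Sep

set_option autoImplicit false

namespace Pool.Agent.Q261.DR

open Finset

lemma log_count (ε : ℝ) (hε : 0 < ε) (N : ℕ) (hN : 1 ≤ N) :
    (2 * Nat.log 2 N + 3 : ℝ) ≤ (3 + 4 / ε) * (N : ℝ) ^ ε := by
  have hNr : (1 : ℝ) ≤ N := by exact_mod_cast hN
  have h3 : (Nat.log 2 N : ℝ) ≤ Real.log N / Real.log 2 := by
    rw [le_div_iff₀ (Real.log_pos (by norm_num))]
    rw [← Real.log_pow]
    apply Real.log_le_log (by positivity)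
    exact_mod_cast Nat.pow_log_le_self 2 (by omega)
  have h4 : Real.log N / Real.log 2 ≤ 2 * Real.log N := by
    rw [div_le_iff₀ (Real.log_pos (by norm_num))]
    have := Real.log_two_gt_d9
    have h5 : 0 ≤ Real.log N := Real.log_nonneg hNr
    nlinarith
  have h5 := Real.log_le_rpow_div (show (0 : ℝ) ≤ N by positivity) hε
  have h6 : 1 ≤ (N : ℝ) ^ ε := Real.one_le_rpow hNr hε.le
  have h7 : (3 + 4 / ε) * (N : ℝ) ^ ε = 3 * (N : ℝ) ^ ε + 4 * ((N : ℝ) ^ ε / ε) := by ring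
  linarith

/-- for all but a proportion `N^(-ε)` of the twists the fourth moment is small, for all `T` and all
`1`-separated sets at once -/
theorem almost (ε : ℝ) (hε : 0 < ε) : ∃ C : ℝ, 0 < C ∧ ∀ (N q : ℕ), 1 ≤ N → 1 ≤ q →
    ∀ b : ℕ → ℂ, (∀ n, ‖b n‖ ≤ 1) → ∃ B : Finset ℕ, B ⊆ range q ∧ (B.card : ℝ) ≤ q * (N : ℝ) ^ (-ε) ∧
      ∀ a ∈ range q, a ∉ B → ∀ T : ℝ, 1 ≤ T → T ≤ (N : ℝ) ^ 2 → ∀ S : Finset ℝ,
        (∀ t ∈ S, 0 ≤ t ∧ t ≤ T) → (∀ t ∈ S, ∀ u ∈ S, t ≠ u → 1 ≤ |t - u|) →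
        q * ∑ t ∈ S, ‖DD N q a b t‖ ^ 4 ≤
          C * (N : ℝ) ^ (3 * ε) * ((N : ℝ) ^ 2 * (q * T + q * N + (N : ℝ) ^ 2)) := by
  classical
  obtain ⟨C1, hC1, hyb⟩ := hybrid ε hε
  refine ⟨2 * C1 * (3 + 4 / ε), by positivity, ?_⟩
  intro N q hN hq b hb
  have hNr : (1 : ℝ) ≤ N := by exact_mod_cast hN
  have hN0 : (0 : ℝ) < N := by linarith
  have hqr : (1 : ℝ) ≤ q := by exact_mod_cast hq
  have hq0 : (0 : ℝ) < q := by linarith
  obtain ⟨X, hX⟩ : ∃ X : ℝ → ℝ, X = fun T => (N : ℝ) ^ 2 * (q * T + q * N + (N : ℝ) ^ 2) := ⟨_, rfl⟩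
  obtain ⟨L, hL⟩ : ∃ L : ℝ, L = C1 * (3 + 4 / ε) * (N : ℝ) ^ (3 * ε) := ⟨_, rfl⟩
  have hL0 : 0 < L := by rw [hL]; positivity
  obtain ⟨Bj, hBj⟩ : ∃ Bj : ℕ → Finset ℕ, Bj = fun j => (range q).filter (fun a => ∃ S : Finset ℝ,
      (∀ t ∈ S, 0 ≤ t ∧ t ≤ (2 : ℝ) ^ j) ∧ (∀ t ∈ S, ∀ u ∈ S, t ≠ u → 1 ≤ |t - u|) ∧
      L * X (2 ^ j) < q * ∑ t ∈ S, ‖DD N q a b t‖ ^ 4) := ⟨_, rfl⟩
  have hBcard : ∀ j, ((Bj j).card : ℝ) ≤ q * (C1 * (N : ℝ) ^ ε) / L := by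
    intro j
    have h1 : ∀ a, ∃ S : Finset ℝ, (∀ t ∈ S, 0 ≤ t ∧ t ≤ (2 : ℝ) ^ j) ∧
        (∀ t ∈ S, ∀ u ∈ S, t ≠ u → 1 ≤ |t - u|) ∧
        (a ∈ Bj j → L * X (2 ^ j) < q * ∑ t ∈ S, ‖DD N q a b t‖ ^ 4) := by
      intro a
      by_cases ha : a ∈ Bj j
      · have h2 := ha
        rw [hBj] at h2
        beta_reduce at h2
        rw [mem_filter] at h2
        obtain ⟨S, hS1, hS2, hS3⟩ := h2.2
        exact ⟨S, hS1, hS2, fun _ => hS3⟩
      · exact ⟨∅, by simp, by simp, fun h => absurd h ha⟩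
    choose S hS1 hS2 hS3 using h1
    have hT : (1 : ℝ) ≤ 2 ^ j := one_le_pow₀ (by norm_num)
    have h2 := hyb N q hN hq (2 ^ j) hT b hb S hS1 hS2
    have hXj : 0 < X (2 ^ j) := by rw [hX]; positivity
    have h3 : ((Bj j).card : ℝ) * (L * X (2 ^ j)) ≤ q * (C1 * (N : ℝ) ^ ε * X (2 ^ j)) := by
      calc ((Bj j).card : ℝ) * (L * X (2 ^ j)) = ∑ a ∈ Bj j, L * X (2 ^ j) := by
            rw [sum_const, nsmul_eq_mul]
        _ ≤ ∑ a ∈ Bj j, q * ∑ t ∈ S a, ‖DD N q a b t‖ ^ 4 :=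
            sum_le_sum fun a ha => (hS3 a ha).le
        _ ≤ ∑ a ∈ range q, q * ∑ t ∈ S a, ‖DD N q a b t‖ ^ 4 := by
            apply sum_le_sum_of_subset_of_nonneg
            · rw [hBj]
              exact filter_subset _ _
            · intro a _ _
              positivity
        _ = q * ∑ a ∈ range q, ∑ t ∈ S a, ‖DD N q a b t‖ ^ 4 := by rw [mul_sum]
        _ ≤ q * (C1 * (N : ℝ) ^ ε * X (2 ^ j)) := by
            apply mul_le_mul_of_nonneg_left _ hq0.le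
            refine h2.trans (le_of_eq ?_)
            rw [hX]
            ring
    rw [le_div_iff₀ hL0]
    have h4 : (((Bj j).card : ℝ) * L) * X (2 ^ j) ≤ (q * (C1 * (N : ℝ) ^ ε)) * X (2 ^ j) := by linarith
    exact le_of_mul_le_mul_right h4 hXj
  refine ⟨(range (2 * Nat.log 2 N + 3)).biUnion Bj, ?_, ?_, ?_⟩
  · intro a ha
    rw [mem_biUnion] at ha
    obtain ⟨j, _, hj⟩ := ha
    rw [hBj] at hj
    exact (mem_filter.1 hj).1
  · have h1 : (((range (2 * Nat.log 2 N + 3)).biUnion Bj).card : ℝ) ≤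
        ∑ j ∈ range (2 * Nat.log 2 N + 3), ((Bj j).card : ℝ) := by exact_mod_cast card_biUnion_le
    have h2 : ∑ j ∈ range (2 * Nat.log 2 N + 3), ((Bj j).card : ℝ) ≤
        (2 * Nat.log 2 N + 3 : ℝ) * (q * (C1 * (N : ℝ) ^ ε) / L) := by
      calc _ ≤ ∑ j ∈ range (2 * Nat.log 2 N + 3), (q * (C1 * (N : ℝ) ^ ε) / L) :=
            sum_le_sum fun j _ => hBcard j
        _ = _ := by
            rw [sum_const, card_range, nsmul_eq_mul]
            push_cast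
            ring
    have h3 := log_count ε hε N hN
    have h4 : (2 * Nat.log 2 N + 3 : ℝ) * (q * (C1 * (N : ℝ) ^ ε) / L) ≤
        ((3 + 4 / ε) * (N : ℝ) ^ ε) * (q * (C1 * (N : ℝ) ^ ε) / L) := by
      apply mul_le_mul_of_nonneg_right h3
      positivity
    have h5 : ((3 + 4 / ε) * (N : ℝ) ^ ε) * (q * (C1 * (N : ℝ) ^ ε) / L) = q * (N : ℝ) ^ (-ε) := by
      rw [hL]
      have e1 : (N : ℝ) ^ (3 * ε) = (N : ℝ) ^ ε * (N : ℝ) ^ ε * (N : ℝ) ^ ε := by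
        rw [← Real.rpow_add hN0, ← Real.rpow_add hN0]
        congr 1
        ring
      rw [e1, Real.rpow_neg hN0.le]
      have e2 : (N : ℝ) ^ ε ≠ 0 := (Real.rpow_pos_of_pos hN0 _).ne'
      have e3 : 3 + 4 / ε ≠ 0 := by positivity
      field_simp
    linarith
  · intro a ha haB T hT hTN S hS hsep
    by_contra hcon
    push Not at hcon
    obtain ⟨n, hn1, hn2⟩ := exists_nat_pow_near hT (show (1 : ℝ) < 2 by norm_num)
    apply haB
    rw [mem_biUnion]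
    refine ⟨n + 1, ?_, ?_⟩
    · rw [mem_range]
      have h1 : (2 : ℝ) ^ n < 2 ^ (2 * Nat.log 2 N + 2) := by
        have h2 : (N : ℝ) < 2 ^ (Nat.log 2 N + 1) := by
          exact_mod_cast Nat.lt_pow_succ_log_self (b := 2) (by norm_num) N
        calc (2 : ℝ) ^ n ≤ (N : ℝ) ^ 2 := hn1.trans hTN
          _ < (2 ^ (Nat.log 2 N + 1)) ^ 2 := by gcongr
          _ = 2 ^ (2 * Nat.log 2 N + 2) := by
              rw [← pow_mul]
              congr 1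
              ring
      have h2 := (pow_lt_pow_iff_right₀ (show (1 : ℝ) < 2 by norm_num)).1 h1
      omega
    · rw [hBj]
      beta_reduce
      rw [mem_filter]
      refine ⟨ha, S, ?_, hsep, ?_⟩
      · intro t ht
        exact ⟨(hS t ht).1, (hS t ht).2.trans hn2.le⟩
      · refine lt_of_le_of_lt ?_ hcon
        have h3 : (2 : ℝ) ^ (n + 1) ≤ 2 * T := by
          rw [pow_succ]
          linarith
        have h4 : X (2 ^ (n + 1)) ≤ 2 * X T := by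
          rw [hX]
          beta_reduce
          have h5 : (q : ℝ) * 2 ^ (n + 1) ≤ q * (2 * T) := by gcongr
          have h6 : (0 : ℝ) ≤ q * N + (N : ℝ) ^ 2 := by positivity
          have h7 : (0 : ℝ) ≤ (N : ℝ) ^ 2 := by positivity
          nlinarith
        calc L * X (2 ^ (n + 1)) ≤ L * (2 * X T) := by gcongr
          _ = 2 * C1 * (3 + 4 / ε) * (N : ℝ) ^ (3 * ε) * ((N : ℝ) ^ 2 * (q * T + q * N + (N : ℝ) ^ 2)) := by
              rw [hL, hX]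
              ring

end Pool.Agent.Q261.DR
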