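import Pool.Agent.Q261.DR.Almost

set_option autoImplicit false

namespace Pool.Agent.Q261.DR

open Finset

/-- the twisted polynomial over the integers of a set `I` -/
noncomputable def TW (I : Finset ℕ) (q a : ℕ) (b : ℕ → ℂ) (t : ℝ) : ℂ :=
  ∑ n ∈ I, b n * Complex.exp (2 * Real.pi * Complex.I * ((a : ℂ) * n / q)) *
    Complex.exp (Complex.I * (t : ℂ) * (Real.log (n : ℝ) : ℂ))

lemma TW_eq (I : Finset ℕ) (N : ℕ) (hI : I ⊆ Icc 1 N) (q a : ℕ) (b : ℕ → ℂ) (t : ℝ) :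
    TW I q a b t = DD N q a (fun n => if n ∈ I then b n else 0) t := by
  classical
  unfold TW DD
  rw [← sum_subset hI]
  · apply sum_congr rfl
    intro n hn
    beta_reduce
    rw [if_pos hn]
    unfold ad
    congr 2
    · congr 2
      push_cast
      ring
    · push_cast
      ring
  · intro n _ hn
    beta_reduce
    rw [if_neg hn]
    ring

/-- the fourth moment bound for almost all twists, `N ≤ T ≤ N²`, `q T ≥ N²`, polynomials over `I ⊆ [1, 2N]` -/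
theorem fourth (ε : ℝ) (hε : 0 < ε) : ∃ C : ℝ, 1 ≤ C ∧ ∀ (N q : ℕ), 1 ≤ N → 1 ≤ q →
    ∀ (I : Finset ℕ), I ⊆ Icc 1 (2 * N) → ∀ b : ℕ → ℂ, (∀ n, ‖b n‖ ≤ 1) →
    ∃ B : Finset ℕ, B ⊆ range q ∧ (B.card : ℝ) ≤ q * (N : ℝ) ^ (-(ε / 3)) ∧
      ∀ a ∈ range q, a ∉ B → ∀ T : ℝ, (N : ℝ) ≤ T → T ≤ (N : ℝ) ^ 2 → (N : ℝ) ^ 2 ≤ q * T → ∀ S : Finset ℝ,
        (∀ t ∈ S, 0 ≤ t ∧ t ≤ T) → (∀ t ∈ S, ∀ u ∈ S, t ≠ u → 1 ≤ |t - u|) →
        ∑ t ∈ S, ‖TW I q a b t‖ ^ 4 ≤ C * (N : ℝ) ^ ε * ((N : ℝ) ^ 2 * T) := by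
  classical
  obtain ⟨C, hC, halm⟩ := almost (ε / 3) (by positivity)
  refine ⟨max 1 (28 * C * 2 ^ ε), le_max_left _ _, ?_⟩
  intro N q hN hq I hI b hb
  have hNr : (1 : ℝ) ≤ N := by exact_mod_cast hN
  have hN0 : (0 : ℝ) < N := by linarith
  have hqr : (1 : ℝ) ≤ q := by exact_mod_cast hq
  have hb' : ∀ n, ‖(fun n => if n ∈ I then b n else 0) n‖ ≤ 1 := by
    intro n
    beta_reduce
    split_ifs
    · exact hb n
    · simp
  obtain ⟨B, hB1, hB2, hB3⟩ := halm (2 * N) q (by omega) hq (fun n => if n ∈ I then b n else 0) hb'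
  refine ⟨B, hB1, ?_, ?_⟩
  · refine hB2.trans ?_
    apply mul_le_mul_of_nonneg_left _ (by positivity)
    apply Real.rpow_le_rpow_of_nonpos hN0
    · push_cast
      linarith
    · linarith
  · intro a ha haB T hT1 hT2 hqT S hS hsep
    have h1 := hB3 a ha haB T (by linarith) (by push_cast; nlinarith) S hS hsep
    have h2 : ∀ t ∈ S, ‖TW I q a b t‖ ^ 4 = ‖DD (2 * N) q a (fun n => if n ∈ I then b n else 0) t‖ ^ 4 := by
      intro t _
      rw [TW_eq I (2 * N) hI]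
    rw [sum_congr rfl h2]
    have h3 : 3 * (ε / 3) = ε := by ring
    rw [h3] at h1
    push_cast at h1
    have h4 : ((2 : ℝ) * N) ^ ε = 2 ^ ε * (N : ℝ) ^ ε := Real.mul_rpow (by norm_num) hN0.le
    rw [h4] at h1
    have h5 : ((2 : ℝ) * N) ^ 2 * (q * T + q * (2 * N) + (2 * N) ^ 2) ≤ 28 * (q * ((N : ℝ) ^ 2 * T)) := by
      have h6 : (q : ℝ) * N ≤ q * T := by gcongr
      have h7 : q * T + q * (2 * N) + (2 * (N : ℝ)) ^ 2 ≤ 7 * (q * T) := by nlinarith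
      calc ((2 : ℝ) * N) ^ 2 * (q * T + q * (2 * N) + (2 * N) ^ 2) ≤ ((2 : ℝ) * N) ^ 2 * (7 * (q * T)) := by gcongr
        _ = _ := by ring
    have h8 : (q : ℝ) * ∑ t ∈ S, ‖DD (2 * N) q a (fun n => if n ∈ I then b n else 0) t‖ ^ 4 ≤
        q * (28 * C * 2 ^ ε * (N : ℝ) ^ ε * ((N : ℝ) ^ 2 * T)) := by
      refine h1.trans ?_
      calc C * (2 ^ ε * (N : ℝ) ^ ε) * (((2 : ℝ) * N) ^ 2 * (q * T + q * (2 * N) + (2 * N) ^ 2)) ≤
            C * (2 ^ ε * (N : ℝ) ^ ε) * (28 * (q * ((N : ℝ) ^ 2 * T))) := by gcongr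
        _ = _ := by ring
    have h9 := le_of_mul_le_mul_left h8 (by linarith)
    refine h9.trans ?_
    have hT0 : 0 ≤ T := by linarith
    gcongr
    exact le_max_right _ _

end Pool.Agent.Q261.DR
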