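import Pool.Agent.Q261.DR.Kernel
import Pool.Agent.H510R2.Div

set_option autoImplicit false

namespace Pool.Agent.Q261.DR

open Finset

/-- the integers `1, …, N` -/
noncomputable def JJ (N : ℕ) : Finset ℤ := Icc (1 : ℤ) N

lemma card_JJ (N : ℕ) : (JJ N).card = N := by
  unfold JJ
  rw [Int.card_Icc]
  omega

/-- factorizations of `k` as `(m - p.1) (m - p.2)` -/
lemma fiber_card (N : ℕ) (m k : ℤ) (hk : k ≠ 0) (D0 : ℝ) (hD : ((k.natAbs.divisors).card : ℝ) ≤ D0) :
    (((JJ N ×ˢ JJ N).filter (fun p => (m - p.1) * (m - p.2) = k)).card : ℝ) ≤ 2 * D0 := by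
  classical
  have h1 : ((JJ N ×ˢ JJ N).filter (fun p => (m - p.1) * (m - p.2) = k)).card ≤
      ((k.natAbs.divisors.image (fun d : ℕ => (d : ℤ))) ∪
        (k.natAbs.divisors.image (fun d : ℕ => -(d : ℤ)))).card := by
    apply card_le_card_of_injOn (fun p => m - p.1)
    · intro p hp
      rw [mem_coe, mem_filter] at hp
      have h2 : m - p.1 ∣ k := ⟨_, hp.2.symm⟩
      have h3 : (m - p.1).natAbs ∈ k.natAbs.divisors := by
        rw [Nat.mem_divisors]
        exact ⟨Int.natAbs_dvd_natAbs.2 h2, by simpa using hk⟩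
      rw [mem_coe, mem_union, mem_image, mem_image]
      rcases Int.natAbs_eq (m - p.1) with h4 | h4
      · left
        exact ⟨_, h3, h4.symm⟩
      · right
        exact ⟨_, h3, h4.symm⟩
    · intro p hp p' hp' h
      rw [mem_coe, mem_filter] at hp hp'
      have h2 : m - p.1 = m - p'.1 := h
      have h3 : m - p.1 ≠ 0 := by
        intro h0
        rw [h0, zero_mul] at hp
        exact hk hp.2.symm
      have h4 : (m - p.1) * (m - p.2) = (m - p.1) * (m - p'.2) := by
        rw [hp.2, h2, hp'.2]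
      have h5 := mul_left_cancel₀ h3 h4
      ext
      · linarith
      · linarith
  have h2 : ((k.natAbs.divisors.image (fun d : ℕ => (d : ℤ))) ∪
        (k.natAbs.divisors.image (fun d : ℕ => -(d : ℤ)))).card ≤ 2 * (k.natAbs.divisors).card := by
    refine (card_union_le _ _).trans ?_
    have h3 := card_image_le (s := k.natAbs.divisors) (f := fun d : ℕ => (d : ℤ))
    have h4 := card_image_le (s := k.natAbs.divisors) (f := fun d : ℕ => -(d : ℤ))
    omega
  have h3 : (((JJ N ×ˢ JJ N).filter (fun p => (m - p.1) * (m - p.2) = k)).card : ℝ) ≤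
      2 * (k.natAbs.divisors).card := by exact_mod_cast h1.trans h2
  linarith

lemma inner_sum (N : ℕ) (R D0 : ℝ) (hR : 0 < R) (hD0 : 0 ≤ D0)
    (hD : ∀ k : ℕ, 1 ≤ k → k ≤ N ^ 2 → (k.divisors.card : ℝ) ≤ D0) (m c : ℤ) (hm : m ∈ JJ N) :
    ∑ p ∈ JJ N ×ˢ JJ N, phi R ((m - p.1) * (m - p.2) + c) ≤ 2 * N * phi R c + 2 * D0 * (1 + 4 * R) := by
  classical
  rw [← sum_filter_add_sum_filter_not (JJ N ×ˢ JJ N) (fun p => (m - p.1) * (m - p.2) = 0)]
  apply add_le_add
  · calc ∑ p ∈ (JJ N ×ˢ JJ N).filter (fun p => (m - p.1) * (m - p.2) = 0), phi R ((m - p.1) * (m - p.2) + c)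
        = ∑ p ∈ (JJ N ×ˢ JJ N).filter (fun p => (m - p.1) * (m - p.2) = 0), phi R c := by
          apply sum_congr rfl
          intro p hp
          rw [mem_filter] at hp
          rw [hp.2, zero_add]
      _ = (((JJ N ×ˢ JJ N).filter (fun p => (m - p.1) * (m - p.2) = 0)).card : ℝ) * phi R c := by
          rw [sum_const, nsmul_eq_mul]
      _ ≤ 2 * N * phi R c := by
          apply mul_le_mul_of_nonneg_right _ (phi_nonneg R c)
          have h1 : (JJ N ×ˢ JJ N).filter (fun p => (m - p.1) * (m - p.2) = 0) ⊆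
              (({m} : Finset ℤ) ×ˢ JJ N) ∪ (JJ N ×ˢ ({m} : Finset ℤ)) := by
            intro p hp
            rw [mem_filter, mem_product] at hp
            rw [mem_union, mem_product, mem_product, mem_singleton, mem_singleton]
            rcases mul_eq_zero.1 hp.2 with h | h
            · left
              exact ⟨by linarith, hp.1.2⟩
            · right
              exact ⟨hp.1.1, by linarith⟩
          have h2 := (card_le_card h1).trans (card_union_le _ _)
          rw [card_product, card_product, card_singleton, card_JJ] at h2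
          have h3 : ((JJ N ×ˢ JJ N).filter (fun p => (m - p.1) * (m - p.2) = 0)).card ≤ 2 * N := by omega
          exact_mod_cast h3
  · have hmaps : ∀ p ∈ (JJ N ×ˢ JJ N).filter (fun p => ¬ (m - p.1) * (m - p.2) = 0),
        (m - p.1) * (m - p.2) ∈ (Icc (-((N : ℤ) ^ 2)) ((N : ℤ) ^ 2)).filter (fun k => k ≠ 0) := by
      intro p hp
      rw [mem_filter, mem_product] at hp
      rw [mem_filter, mem_Icc]
      refine ⟨?_, hp.2⟩
      unfold JJ at hp hm
      rw [mem_Icc] at hp hm
      rw [mem_Icc] at hp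
      have h1 : |m - p.1| ≤ N := by rw [abs_le]; constructor <;> linarith [hp.1.1.1, hp.1.1.2, hm.1, hm.2]
      have h2 : |m - p.2| ≤ N := by rw [abs_le]; constructor <;> linarith [hp.1.2.1, hp.1.2.2, hm.1, hm.2]
      have h3 : |(m - p.1) * (m - p.2)| ≤ (N : ℤ) ^ 2 := by
        rw [abs_mul, sq]
        exact mul_le_mul h1 h2 (abs_nonneg _) (by positivity)
      exact abs_le.1 h3
    rw [← sum_fiberwise_of_maps_to hmaps]
    calc ∑ k ∈ (Icc (-((N : ℤ) ^ 2)) ((N : ℤ) ^ 2)).filter (fun k => k ≠ 0),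
          ∑ p ∈ ((JJ N ×ˢ JJ N).filter (fun p => ¬ (m - p.1) * (m - p.2) = 0)).filter
            (fun p => (m - p.1) * (m - p.2) = k), phi R ((m - p.1) * (m - p.2) + c)
        ≤ ∑ k ∈ (Icc (-((N : ℤ) ^ 2)) ((N : ℤ) ^ 2)).filter (fun k => k ≠ 0), 2 * D0 * phi R (k + c) := by
          apply sum_le_sum
          intro k hk
          rw [mem_filter, mem_Icc] at hk
          have h1 : ∑ p ∈ ((JJ N ×ˢ JJ N).filter (fun p => ¬ (m - p.1) * (m - p.2) = 0)).filter
              (fun p => (m - p.1) * (m - p.2) = k), phi R ((m - p.1) * (m - p.2) + c) =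
              ((((JJ N ×ˢ JJ N).filter (fun p => ¬ (m - p.1) * (m - p.2) = 0)).filter
              (fun p => (m - p.1) * (m - p.2) = k)).card : ℝ) * phi R (k + c) := by
            rw [← nsmul_eq_mul, ← sum_const]
            apply sum_congr rfl
            intro p hp
            rw [mem_filter] at hp
            rw [hp.2]
          rw [h1]
          apply mul_le_mul_of_nonneg_right _ (phi_nonneg R _)
          have h2 : (((JJ N ×ˢ JJ N).filter (fun p => ¬ (m - p.1) * (m - p.2) = 0)).filter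
              (fun p => (m - p.1) * (m - p.2) = k)).card ≤
              ((JJ N ×ˢ JJ N).filter (fun p => (m - p.1) * (m - p.2) = k)).card := by
            apply card_le_card
            intro p hp
            rw [mem_filter, mem_filter] at hp
            rw [mem_filter]
            exact ⟨hp.1.1, hp.2⟩
          have h3 : ((k.natAbs.divisors).card : ℝ) ≤ D0 := by
            apply hD
            · have := hk.2
              omega
            · have h4 : |k| ≤ (N : ℤ) ^ 2 := abs_le.2 hk.1
              rw [Int.abs_eq_natAbs] at h4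
              exact_mod_cast h4
          refine le_trans ?_ (fiber_card N m k hk.2 D0 h3)
          exact_mod_cast h2
      _ = 2 * D0 * ∑ k ∈ (Icc (-((N : ℤ) ^ 2)) ((N : ℤ) ^ 2)).filter (fun k => k ≠ 0), phi R (k + c) := by
          rw [mul_sum]
      _ ≤ 2 * D0 * (1 + 4 * R) := by
          apply mul_le_mul_of_nonneg_left _ (by positivity)
          have h1 : ∑ k ∈ (Icc (-((N : ℤ) ^ 2)) ((N : ℤ) ^ 2)).filter (fun k => k ≠ 0), phi R (k + c) =
              ∑ k ∈ ((Icc (-((N : ℤ) ^ 2)) ((N : ℤ) ^ 2)).filter (fun k => k ≠ 0)).image (fun k => k + c),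
                phi R k := by
            rw [sum_image]
            intro x _ y _ h
            exact add_right_cancel h
          rw [h1]
          exact phi_sum R hR _

/-- the multiples of `q` in `[-2N, 2N]` -/
noncomputable def HH (N q : ℕ) : Finset ℤ := (Icc (-(2 * N : ℤ)) (2 * N)).filter (fun h => (q : ℤ) ∣ h)

lemma card_HH (N q : ℕ) (hq : 1 ≤ q) : ((HH N q).card : ℝ) ≤ 4 * N / q + 1 := by
  classical
  have h1 : HH N q ⊆ (Icc (-((2 * N / q : ℕ) : ℤ)) ((2 * N / q : ℕ) : ℤ)).image (fun j => (q : ℤ) * j) := by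
    intro h hh
    unfold HH at hh
    rw [mem_filter, mem_Icc] at hh
    obtain ⟨⟨h2, h3⟩, j, rfl⟩ := hh
    rw [mem_image]
    refine ⟨j, ?_, rfl⟩
    rw [mem_Icc]
    have hq0 : (0 : ℤ) < q := by exact_mod_cast hq
    have h4 : |(q : ℤ) * j| ≤ 2 * N := abs_le.2 ⟨h2, h3⟩
    have h5 : (j.natAbs) * q ≤ 2 * N := by
      have : ((j.natAbs * q : ℕ) : ℤ) ≤ ((2 * N : ℕ) : ℤ) := by
        push_cast
        rw [abs_mul, abs_of_pos hq0] at h4
        linarith
      exact_mod_cast this
    have h6 : j.natAbs ≤ 2 * N / q := (Nat.le_div_iff_mul_le (by omega)).2 h5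
    omega
  have h2 := (card_le_card h1).trans card_image_le
  rw [Int.card_Icc] at h2
  have h3 : (HH N q).card ≤ 2 * (2 * N / q) + 1 := by omega
  have h4 : ((2 * N / q : ℕ) : ℝ) ≤ 2 * N / q := by
    have := Nat.cast_div_le (α := ℝ) (m := 2 * N) (n := q)
    push_cast at this
    exact this
  have h5 : ((HH N q).card : ℝ) ≤ 2 * ((2 * N / q : ℕ) : ℝ) + 1 := by exact_mod_cast h3
  calc ((HH N q).card : ℝ) ≤ 2 * ((2 * N / q : ℕ) : ℝ) + 1 := h5
    _ ≤ 2 * (2 * N / q) + 1 := by linarith
    _ = 4 * N / q + 1 := by ring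

theorem count (N q : ℕ) (hq : 1 ≤ q) (R D0 : ℝ) (hR : 0 < R) (hD0 : 1 ≤ D0)
    (hD : ∀ k : ℕ, 1 ≤ k → k ≤ N ^ 2 → (k.divisors.card : ℝ) ≤ D0) :
    ∑ x ∈ JJ N ×ˢ JJ N, ∑ y ∈ JJ N ×ˢ JJ N,
      (if (q : ℤ) ∣ x.1 + x.2 - y.1 - y.2 then phi R (x.1 * x.2 - y.1 * y.2) else 0) ≤
      2 * N ^ 2 + 4 * N * (4 * N / q + 1) * D0 * (1 + 4 * R) := by
  classical
  have h1 : ∀ x ∈ JJ N ×ˢ JJ N, ∑ y ∈ JJ N ×ˢ JJ N,
      (if (q : ℤ) ∣ x.1 + x.2 - y.1 - y.2 then phi R (x.1 * x.2 - y.1 * y.2) else 0) ≤
      ∑ m ∈ JJ N, ∑ h ∈ HH N q, phi R ((m - x.1) * (m - x.2) + m * h) := by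
    intro x hx
    rw [sum_product]
    apply sum_le_sum
    intro m hm
    rw [← sum_filter]
    have h2 : ∑ y ∈ (JJ N).filter (fun y => (q : ℤ) ∣ x.1 + x.2 - m - y), phi R (x.1 * x.2 - m * y) =
        ∑ h ∈ ((JJ N).filter (fun y => (q : ℤ) ∣ x.1 + x.2 - m - y)).image (fun y => x.1 + x.2 - m - y),
          phi R ((m - x.1) * (m - x.2) + m * h) := by
      rw [sum_image]
      · apply sum_congr rfl
        intro y _
        congr 1
        ring
      · intro y _ y' _ h
        have : x.1 + x.2 - m - y = x.1 + x.2 - m - y' := h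
        linarith
    rw [h2]
    apply sum_le_sum_of_subset_of_nonneg
    · intro h hh
      rw [mem_image] at hh
      obtain ⟨y, hy, rfl⟩ := hh
      rw [mem_filter] at hy
      unfold HH
      rw [mem_filter, mem_Icc]
      rw [mem_product] at hx
      unfold JJ at hx hm hy
      rw [mem_Icc] at hx hm hy
      rw [mem_Icc] at hx
      refine ⟨⟨?_, ?_⟩, hy.2⟩ <;> linarith [hx.1.1, hx.1.2, hx.2.1, hx.2.2, hm.1, hm.2, hy.1.1, hy.1.2]
    · intro h _ _
      exact phi_nonneg R _
  have hH : ((HH N q).card : ℝ) ≤ 4 * N / q + 1 := card_HH N q hq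
  have hR4 : 0 < 1 + 4 * R := by positivity
  calc _ ≤ ∑ x ∈ JJ N ×ˢ JJ N, ∑ m ∈ JJ N, ∑ h ∈ HH N q, phi R ((m - x.1) * (m - x.2) + m * h) :=
        sum_le_sum h1
    _ = ∑ h ∈ HH N q, ∑ m ∈ JJ N, ∑ x ∈ JJ N ×ˢ JJ N, phi R ((m - x.1) * (m - x.2) + m * h) := by
        rw [sum_comm]
        rw [sum_congr rfl (fun m _ => sum_comm)]
        rw [sum_comm]
    _ ≤ ∑ h ∈ HH N q, ∑ m ∈ JJ N, (2 * N * phi R (m * h) + 2 * D0 * (1 + 4 * R)) := by
        apply sum_le_sum
        intro h _
        apply sum_le_sum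
        intro m hm
        exact inner_sum N R D0 hR (by linarith) hD m (m * h) hm
    _ = 2 * N * (∑ h ∈ HH N q, ∑ m ∈ JJ N, phi R (m * h)) + (HH N q).card * (N * (2 * D0 * (1 + 4 * R))) := by
        rw [mul_sum]
        rw [← nsmul_eq_mul, ← sum_const, ← sum_add_distrib]
        apply sum_congr rfl
        intro h _
        rw [sum_add_distrib, sum_const, card_JJ, nsmul_eq_mul, mul_sum]
    _ ≤ 2 * N * (N + (HH N q).card * (1 + 4 * R)) + (HH N q).card * (N * (2 * D0 * (1 + 4 * R))) := by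
        gcongr
        calc ∑ h ∈ HH N q, ∑ m ∈ JJ N, phi R (m * h) ≤
              ∑ h ∈ HH N q, ((if h = 0 then (N : ℝ) else 0) + (1 + 4 * R)) := by
              apply sum_le_sum
              intro h _
              by_cases h0 : h = 0
              · rw [if_pos h0]
                have h3 : ∑ m ∈ JJ N, phi R (m * h) ≤ N := by
                  calc ∑ m ∈ JJ N, phi R (m * h) ≤ ∑ m ∈ JJ N, (1 : ℝ) :=
                        sum_le_sum (fun m _ => phi_le_one R _)
                    _ = N := by rw [sum_const, card_JJ, nsmul_eq_mul, mul_one]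
                linarith
              · rw [if_neg h0, zero_add]
                have h3 : ∑ m ∈ JJ N, phi R (m * h) = ∑ r ∈ (JJ N).image (fun m => m * h), phi R r := by
                  rw [sum_image]
                  intro x _ y _ hxy
                  exact mul_right_cancel₀ h0 hxy
                rw [h3]
                exact phi_sum R hR _
          _ ≤ N + (HH N q).card * (1 + 4 * R) := by
              rw [sum_add_distrib, sum_const, nsmul_eq_mul]
              gcongr
              rw [sum_ite_eq']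
              split_ifs
              · exact le_refl _
              · positivity
    _ = 2 * N ^ 2 + 2 * N * (1 + 4 * R) * (HH N q).card * (1 + D0) := by ring
    _ ≤ 2 * N ^ 2 + 2 * N * (1 + 4 * R) * (4 * N / q + 1) * (2 * D0) := by
        gcongr
        linarith
    _ = _ := by ring

end Pool.Agent.Q261.DR
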