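import Mathlib

set_option autoImplicit false

namespace Pool.Agent.Q261.DR

open Finset MeasureTheory

/-- the Gaussian weight -/
noncomputable def w (M t : ℝ) : ℝ := Real.exp (-(t / M) ^ 2)

/-- its Fourier transform -/
noncomputable def wh (M lam : ℝ) : ℂ := ∫ t : ℝ, (w M t : ℂ) * Complex.exp (((lam * t : ℝ) : ℂ) * Complex.I)

lemma w_eq (M t : ℝ) : (w M t : ℂ) = Complex.exp (-((1 / M ^ 2 : ℝ) : ℂ) * (t : ℂ) ^ 2) := by
  unfold w
  push_cast
  congr 1
  ring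

lemma wh_bound (M lam : ℝ) (hM : 0 < M) : ‖wh M lam‖ ≤ 2 * M / (1 + (lam * M / 2) ^ 2) := by
  have hb : 0 < (((1 / M ^ 2 : ℝ) : ℂ)).re := by
    rw [Complex.ofReal_re]
    positivity
  have h1 := fourierIntegral_gaussian hb (lam : ℂ)
  have h2 : wh M lam = ∫ x : ℝ, Complex.exp (Complex.I * (lam : ℂ) * (x : ℂ)) *
      Complex.exp (-((1 / M ^ 2 : ℝ) : ℂ) * (x : ℂ) ^ 2) := by
    unfold wh
    congr 1
    ext x
    rw [w_eq, mul_comm]
    congr 2
    push_cast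
    ring
  rw [h2, h1, norm_mul]
  have h3 : ‖((Real.pi : ℂ) / ((1 / M ^ 2 : ℝ) : ℂ)) ^ (1 / 2 : ℂ)‖ ≤ 2 * M := by
    have h4 : ((Real.pi : ℂ) / ((1 / M ^ 2 : ℝ) : ℂ)) = ((Real.pi * M ^ 2 : ℝ) : ℂ) := by
      push_cast
      field_simp
    rw [h4, Complex.norm_cpow_eq_rpow_re_of_pos (by positivity)]
    have h5 : ((1 / 2 : ℂ)).re = 1 / 2 := by norm_num
    rw [h5, ← Real.sqrt_eq_rpow]
    rw [show (2 * M) = Real.sqrt ((2 * M) ^ 2) by rw [Real.sqrt_sq (by positivity)]]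
    apply Real.sqrt_le_sqrt
    have := Real.pi_le_four
    nlinarith [pow_pos hM 2]
  have h6 : ‖Complex.exp (-(lam : ℂ) ^ 2 / (4 * ((1 / M ^ 2 : ℝ) : ℂ)))‖ ≤ 1 / (1 + (lam * M / 2) ^ 2) := by
    have h7 : (-(lam : ℂ) ^ 2 / (4 * ((1 / M ^ 2 : ℝ) : ℂ))) = ((-(lam * M / 2) ^ 2 : ℝ) : ℂ) := by
      push_cast
      field_simp
      ring
    rw [h7, Complex.norm_exp_ofReal, Real.exp_neg, ← one_div]
    apply one_div_le_one_div_of_le (by positivity)
    have := Real.add_one_le_exp ((lam * M / 2) ^ 2)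
    linarith
  calc ‖((Real.pi : ℂ) / ((1 / M ^ 2 : ℝ) : ℂ)) ^ (1 / 2 : ℂ)‖ *
        ‖Complex.exp (-(lam : ℂ) ^ 2 / (4 * ((1 / M ^ 2 : ℝ) : ℂ)))‖ ≤
        (2 * M) * (1 / (1 + (lam * M / 2) ^ 2)) := by
        apply mul_le_mul h3 h6 (norm_nonneg _) (by positivity)
    _ = _ := by ring

/-- the weights -/
noncomputable def phi (R : ℝ) (r : ℤ) : ℝ := 1 / (1 + ((r : ℝ) / R) ^ 2)

lemma phi_nonneg (R : ℝ) (r : ℤ) : 0 ≤ phi R r := by unfold phi; positivity

lemma phi_le_one (R : ℝ) (r : ℤ) : phi R r ≤ 1 := by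
  unfold phi
  rw [div_le_one (by positivity)]
  have := sq_nonneg ((r : ℝ) / R)
  linarith

lemma phi_abs (R : ℝ) (r : ℤ) : phi R r = phi R (r.natAbs : ℤ) := by
  unfold phi
  congr 2
  rw [div_pow, div_pow]
  congr 1
  have : ((r.natAbs : ℤ) : ℝ) = |(r : ℝ)| := by
    rw [Int.natCast_natAbs, Int.cast_abs]
  rw [this, sq_abs]

lemma phi_nat_sum (R : ℝ) (hR : 0 < R) (L : ℕ) :
    ∑ k ∈ range L, phi R ((k + 1 : ℕ) : ℤ) ≤ 2 * R * L / (R + L) := by
  induction L with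
  | zero => simp
  | succ L ih =>
    rw [sum_range_succ]
    have h1 : phi R ((L + 1 : ℕ) : ℤ) ≤ 2 * R * (L + 1 : ℕ) / (R + (L + 1 : ℕ)) - 2 * R * L / (R + L) := by
      unfold phi
      push_cast
      have hL : (0 : ℝ) ≤ L := by positivity
      rw [div_sub_div _ _ (by positivity) (by positivity), div_le_div_iff₀ (by positivity) (by positivity)]
      have h2 : (2 * R * ((L : ℝ) + 1) * (R + L) - (R + (L + 1)) * (2 * R * L)) = 2 * R ^ 2 := by ring
      rw [h2]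
      have h3 : (1 + (((L : ℝ) + 1) / R) ^ 2) = (R ^ 2 + (L + 1) ^ 2) / R ^ 2 := by
        field_simp
      rw [h3]
      have h4 : 2 * R ^ 2 * ((R ^ 2 + ((L : ℝ) + 1) ^ 2) / R ^ 2) = 2 * (R ^ 2 + (L + 1) ^ 2) := by
        field_simp
      rw [h4]
      nlinarith [sq_nonneg (R - (L + 1))]
    linarith

lemma phi_sum (R : ℝ) (hR : 0 < R) (A : Finset ℤ) : ∑ r ∈ A, phi R r ≤ 1 + 4 * R := by
  classical
  obtain ⟨L, hL⟩ : ∃ L : ℕ, ∀ r ∈ A, r.natAbs ≤ L := ⟨A.sup Int.natAbs, fun r hr => le_sup hr⟩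
  have hmaps : ∀ r ∈ A, r.natAbs ∈ range (L + 1) := fun r hr => mem_range.2 (by have := hL r hr; omega)
  rw [← sum_fiberwise_of_maps_to hmaps]
  rw [sum_range_succ']
  have h0 : ∑ r ∈ A.filter (fun r => r.natAbs = 0), phi R r ≤ 1 := by
    calc ∑ r ∈ A.filter (fun r => r.natAbs = 0), phi R r ≤ ∑ r ∈ ({0} : Finset ℤ), phi R r := by
          apply sum_le_sum_of_subset_of_nonneg
          · intro r hr
            rw [mem_filter] at hr
            rw [mem_singleton]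
            omega
          · intro r _ _
            exact phi_nonneg R r
      _ ≤ 1 := by rw [sum_singleton]; exact phi_le_one R 0
  have h1 : ∀ k ∈ range L, ∑ r ∈ A.filter (fun r => r.natAbs = k + 1), phi R r ≤ 2 * phi R ((k + 1 : ℕ) : ℤ) := by
    intro k _
    calc ∑ r ∈ A.filter (fun r => r.natAbs = k + 1), phi R r ≤
          ∑ r ∈ ({((k + 1 : ℕ) : ℤ), -((k + 1 : ℕ) : ℤ)} : Finset ℤ), phi R r := by
          apply sum_le_sum_of_subset_of_nonneg
          · intro r hr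
            rw [mem_filter] at hr
            rw [mem_insert, mem_singleton]
            omega
          · intro r _ _
            exact phi_nonneg R r
      _ ≤ 2 * phi R ((k + 1 : ℕ) : ℤ) := by
          rw [sum_pair (by omega)]
          have : phi R (-((k + 1 : ℕ) : ℤ)) = phi R ((k + 1 : ℕ) : ℤ) := by
            rw [phi_abs, Int.natAbs_neg, Int.natAbs_natCast]
          rw [this]
          linarith
  have h2 := sum_le_sum h1
  rw [← mul_sum] at h2
  have h3 := phi_nat_sum R hR L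
  have h4 : 2 * R * L / (R + L) ≤ 2 * R := by
    rw [div_le_iff₀ (by positivity)]
    nlinarith [show (0 : ℝ) ≤ L by positivity]
  linarith

end Pool.Agent.Q261.DR
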