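import Pool.Agent.Q261.DR.Count

set_option autoImplicit false

namespace Pool.Agent.Q261.DR

open Finset MeasureTheory

/-- `e(k/q)` -/
noncomputable def ad (q : ℕ) (k : ℤ) : ℂ := Complex.exp (2 * Real.pi * Complex.I * ((k : ℂ) / q))

lemma ad_add (q : ℕ) (k l : ℤ) : ad q (k + l) = ad q k * ad q l := by
  unfold ad
  rw [← Complex.exp_add]
  congr 1
  push_cast
  ring

lemma ad_conj (q : ℕ) (k : ℤ) : (starRingEnd ℂ) (ad q k) = ad q (-k) := by
  unfold ad
  rw [← Complex.exp_conj]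
  congr 1
  simp only [map_mul, map_div₀, Complex.conj_I, Complex.conj_ofReal, map_ofNat, map_natCast, map_intCast]
  push_cast
  ring

lemma ad_norm (q : ℕ) (k : ℤ) : ‖ad q k‖ = 1 := by
  unfold ad
  have : (2 * Real.pi * Complex.I * ((k : ℂ) / q)) = ((2 * Real.pi * (k / q) : ℝ) : ℂ) * Complex.I := by
    push_cast
    ring
  rw [this, Complex.norm_exp_ofReal_mul_I]

lemma ad_nat_mul (q a : ℕ) (k : ℤ) : ad q (a * k) = ad q k ^ a := by
  unfold ad
  rw [← Complex.exp_nat_mul]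
  congr 1
  push_cast
  ring

lemma ad_one_iff (q : ℕ) (hq : 1 ≤ q) (k : ℤ) : ad q k = 1 ↔ (q : ℤ) ∣ k := by
  have hq0 : (q : ℂ) ≠ 0 := by exact_mod_cast (by omega : q ≠ 0)
  have hpi : (Real.pi : ℂ) ≠ 0 := by exact_mod_cast Real.pi_ne_zero
  unfold ad
  rw [Complex.exp_eq_one_iff]
  constructor
  · rintro ⟨n, hn⟩
    refine ⟨n, ?_⟩
    have h1 : (k : ℂ) = q * n := by
      have h2 : (2 * Real.pi * Complex.I) * ((k : ℂ) / q) = (2 * Real.pi * Complex.I) * n := by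
        rw [hn]; ring
      have h3 := mul_left_cancel₀ (by simp [hpi]) h2
      rw [div_eq_iff hq0] at h3
      rw [h3]
      ring
    exact_mod_cast h1
  · rintro ⟨n, rfl⟩
    refine ⟨n, ?_⟩
    push_cast
    field_simp

lemma ad_sum (q : ℕ) (hq : 1 ≤ q) (k : ℤ) :
    ∑ a ∈ range q, ad q (a * k) = if (q : ℤ) ∣ k then (q : ℂ) else 0 := by
  rw [sum_congr rfl (fun a _ => ad_nat_mul q a k)]
  split_ifs with h
  · rw [(ad_one_iff q hq k).2 h]
    simp
  · have h1 : ad q k ≠ 1 := fun h2 => h ((ad_one_iff q hq k).1 h2)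
    rw [geom_sum_eq h1, ← ad_nat_mul, (ad_one_iff q hq _).2 ⟨k, rfl⟩]
    simp

lemma w_integrable (M : ℝ) (hM : 0 < M) : Integrable (fun t => w M t) := by
  have h := integrable_exp_neg_mul_sq (show 0 < 1 / M ^ 2 by positivity)
  refine h.congr (Filter.Eventually.of_forall fun t => ?_)
  unfold w
  congr 1
  field_simp

lemma w_continuous (M : ℝ) : Continuous (fun t => w M t) := by
  unfold w
  fun_prop

lemma wexp_integrable (M lam : ℝ) (hM : 0 < M) :
    Integrable (fun t : ℝ => (w M t : ℂ) * Complex.exp (((lam * t : ℝ) : ℂ) * Complex.I)) := by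
  refine (w_integrable M hM).mono' ?_ (Filter.Eventually.of_forall fun t => ?_)
  · have h1 : Continuous (fun t : ℝ => (w M t : ℂ) * Complex.exp (((lam * t : ℝ) : ℂ) * Complex.I)) := by
      have := w_continuous M
      fun_prop
    exact h1.aestronglyMeasurable
  · rw [norm_mul, Complex.norm_exp_ofReal_mul_I, mul_one, Complex.norm_real, Real.norm_eq_abs]
    unfold w
    rw [abs_of_pos (Real.exp_pos _)]

/-- exponential polynomial -/
noncomputable def ep {ι : Type*} (P : Finset ι) (c : ι → ℂ) (l : ι → ℝ) (t : ℝ) : ℂ :=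
  ∑ x ∈ P, c x * Complex.exp (((l x * t : ℝ) : ℂ) * Complex.I)

lemma quad_pt {ι : Type*} (P : Finset ι) (c : ι → ℂ) (l : ι → ℝ) (M t : ℝ) :
    ((w M t * ‖ep P c l t‖ ^ 2 : ℝ) : ℂ) = ∑ x ∈ P, ∑ y ∈ P, c x * (starRingEnd ℂ) (c y) *
      ((w M t : ℂ) * Complex.exp ((((l x - l y) * t : ℝ) : ℂ) * Complex.I)) := by
  have h1 : ((‖ep P c l t‖ ^ 2 : ℝ) : ℂ) = ep P c l t * (starRingEnd ℂ) (ep P c l t) := by
    rw [Complex.mul_conj, Complex.normSq_eq_norm_sq]
  rw [Complex.ofReal_mul, h1]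
  unfold ep
  rw [map_sum, sum_mul_sum, mul_sum]
  apply sum_congr rfl
  intro x _
  rw [mul_sum]
  apply sum_congr rfl
  intro y _
  rw [map_mul, ← Complex.exp_conj, map_mul, Complex.conj_I, Complex.conj_ofReal]
  have h2 : Complex.exp ((((l x - l y) * t : ℝ) : ℂ) * Complex.I) =
      Complex.exp (((l x * t : ℝ) : ℂ) * Complex.I) * Complex.exp (((l y * t : ℝ) : ℂ) * -Complex.I) := by
    rw [← Complex.exp_add]
    congr 1
    push_cast
    ring
  rw [h2]
  ring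

lemma quad {ι : Type*} (P : Finset ι) (c : ι → ℂ) (l : ι → ℝ) (M : ℝ) (hM : 0 < M) :
    ((∫ t : ℝ, w M t * ‖ep P c l t‖ ^ 2 : ℝ) : ℂ) = ∑ x ∈ P, ∑ y ∈ P, c x * (starRingEnd ℂ) (c y) *
      wh M (l x - l y) := by
  rw [← integral_complex_ofReal, integral_congr_ae (Filter.Eventually.of_forall (quad_pt P c l M))]
  rw [integral_finset_sum]
  · apply sum_congr rfl
    intro x _
    rw [integral_finset_sum]
    · apply sum_congr rfl
      intro y _
      rw [integral_const_mul]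
      rfl
    · intro y _
      exact (wexp_integrable M (l x - l y) hM).const_mul _
  · intro x _
    apply integrable_finset_sum
    intro y _
    exact (wexp_integrable M (l x - l y) hM).const_mul _

/-- `D_a(t) = ∑_{n ≤ N} b_n e(an/q) n^{it}` -/
noncomputable def DD (N q a : ℕ) (b : ℕ → ℂ) (t : ℝ) : ℂ :=
  ∑ n ∈ Icc 1 N, b n * ad q (a * n) * Complex.exp (((Real.log n * t : ℝ) : ℂ) * Complex.I)

lemma DD_sq (N q a : ℕ) (b : ℕ → ℂ) (t : ℝ) :
    DD N q a b t ^ 2 = ep (Icc 1 N ×ˢ Icc 1 N) (fun x => b x.1 * b x.2 * ad q (a * (x.1 + x.2)))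
      (fun x => Real.log x.1 + Real.log x.2) t := by
  unfold DD ep
  rw [sq, sum_mul_sum, ← sum_product']
  apply sum_congr rfl
  intro x _
  have h1 : ad q ((a : ℤ) * ((x.1 : ℤ) + (x.2 : ℤ))) = ad q (a * x.1) * ad q (a * x.2) := by
    rw [← ad_add]
    congr 1
    ring
  have h2 : Complex.exp ((((Real.log x.1 + Real.log x.2) * t : ℝ) : ℂ) * Complex.I) =
      Complex.exp (((Real.log x.1 * t : ℝ) : ℂ) * Complex.I) *
        Complex.exp (((Real.log x.2 * t : ℝ) : ℂ) * Complex.I) := by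
    rw [← Complex.exp_add]
    congr 1
    push_cast
    ring
  beta_reduce
  rw [h1, h2]
  ring

lemma log_diff (A B X : ℝ) (hA : 0 < A) (hB : 0 < B) (hAX : A ≤ X) (hBX : B ≤ X) :
    |A - B| / X ≤ |Real.log A - Real.log B| := by
  have key : ∀ A B : ℝ, 0 < A → 0 < B → A ≤ X → B ≤ X → B ≤ A → (A - B) / X ≤ Real.log A - Real.log B := by
    intro A B hA hB hAX _ _
    have h1 := Real.log_le_sub_one_of_pos (show 0 < B / A by positivity)
    rw [Real.log_div hB.ne' hA.ne'] at h1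
    have h2 : (A - B) / X ≤ (A - B) / A := by
      apply div_le_div_of_nonneg_left (by linarith) hA hAX
    have h3 : (A - B) / A = 1 - B / A := by
      field_simp
    linarith
  rcases le_total B A with h | h
  · rw [abs_of_nonneg (by linarith)]
    exact (key A B hA hB hAX hBX h).trans (le_abs_self _)
  · rw [abs_sub_comm, abs_of_nonneg (by linarith), abs_sub_comm]
    exact (key B A hB hA hBX hAX h).trans (le_abs_self _)

theorem moment (N q : ℕ) (hN : 1 ≤ N) (hq : 1 ≤ q) (M : ℝ) (hM : 0 < M) (b : ℕ → ℂ) (hb : ∀ n, ‖b n‖ ≤ 1) :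
    ∑ a ∈ range q, ∫ t : ℝ, w M t * ‖DD N q a b t‖ ^ 4 ≤
      q * (2 * M) * ∑ x ∈ JJ N ×ˢ JJ N, ∑ y ∈ JJ N ×ˢ JJ N,
      (if (q : ℤ) ∣ x.1 + x.2 - y.1 - y.2 then phi (2 * N ^ 2 / M) (x.1 * x.2 - y.1 * y.2) else 0) := by
  classical
  obtain ⟨P, hP⟩ : ∃ P : Finset (ℕ × ℕ), P = Icc 1 N ×ˢ Icc 1 N := ⟨_, rfl⟩
  have hN0 : (0 : ℝ) < N := by exact_mod_cast hN
  have h1 : ((∑ a ∈ range q, ∫ t : ℝ, w M t * ‖DD N q a b t‖ ^ 4 : ℝ) : ℂ) =
      ∑ x ∈ P, ∑ y ∈ P, (b x.1 * b x.2 * (starRingEnd ℂ) (b y.1 * b y.2)) *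
        (if (q : ℤ) ∣ (x.1 : ℤ) + x.2 - y.1 - y.2 then (q : ℂ) else 0) *
        wh M ((Real.log x.1 + Real.log x.2) - (Real.log y.1 + Real.log y.2)) := by
    rw [Complex.ofReal_sum]
    have h2 : ∀ a ∈ range q, ((∫ t : ℝ, w M t * ‖DD N q a b t‖ ^ 4 : ℝ) : ℂ) =
        ∑ x ∈ P, ∑ y ∈ P, (b x.1 * b x.2 * (starRingEnd ℂ) (b y.1 * b y.2)) *
          ad q (a * ((x.1 : ℤ) + x.2 - y.1 - y.2)) *
          wh M ((Real.log x.1 + Real.log x.2) - (Real.log y.1 + Real.log y.2)) := by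
      intro a _
      have h3 : ∀ t : ℝ, w M t * ‖DD N q a b t‖ ^ 4 = w M t * ‖ep P
          (fun x => b x.1 * b x.2 * ad q (a * (x.1 + x.2))) (fun x => Real.log x.1 + Real.log x.2) t‖ ^ 2 := by
        intro t
        rw [hP, ← DD_sq, norm_pow]
        ring
      rw [integral_congr_ae (Filter.Eventually.of_forall h3), quad _ _ _ _ hM]
      apply sum_congr rfl
      intro x _
      apply sum_congr rfl
      intro y _
      congr 1
      rw [map_mul (starRingEnd ℂ) (b y.1 * b y.2), ad_conj]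
      have h4 : ad q (a * ((x.1 : ℤ) + x.2 - y.1 - y.2)) =
          ad q (a * ((x.1 : ℤ) + x.2)) * ad q (-(a * ((y.1 : ℤ) + y.2))) := by
        rw [← ad_add]
        congr 1
        ring
      rw [h4]
      ring
    rw [sum_congr rfl h2, sum_comm]
    apply sum_congr rfl
    intro x _
    rw [sum_comm]
    apply sum_congr rfl
    intro y _
    rw [← sum_mul, ← mul_sum, ad_sum q hq]
  have hnn : 0 ≤ ∑ a ∈ range q, ∫ t : ℝ, w M t * ‖DD N q a b t‖ ^ 4 := by
    apply sum_nonneg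
    intro a _
    apply integral_nonneg
    intro t
    have : 0 < w M t := Real.exp_pos _
    positivity
  have h5 : ∑ a ∈ range q, ∫ t : ℝ, w M t * ‖DD N q a b t‖ ^ 4 =
      ‖((∑ a ∈ range q, ∫ t : ℝ, w M t * ‖DD N q a b t‖ ^ 4 : ℝ) : ℂ)‖ := by
    rw [Complex.norm_real, Real.norm_eq_abs, abs_of_nonneg hnn]
  rw [h5, h1]
  have h6 : ∀ x ∈ P, ∀ y ∈ P, ‖(b x.1 * b x.2 * (starRingEnd ℂ) (b y.1 * b y.2)) *
        (if (q : ℤ) ∣ (x.1 : ℤ) + x.2 - y.1 - y.2 then (q : ℂ) else 0) *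
        wh M ((Real.log x.1 + Real.log x.2) - (Real.log y.1 + Real.log y.2))‖ ≤
      q * (2 * M) * (if (q : ℤ) ∣ (x.1 : ℤ) + x.2 - y.1 - y.2 then
        phi (2 * N ^ 2 / M) ((x.1 : ℤ) * x.2 - y.1 * y.2) else 0) := by
    intro x hx y hy
    rw [hP, mem_product, mem_Icc, mem_Icc] at hx hy
    split_ifs with h
    · have h7 : ‖b x.1 * b x.2 * (starRingEnd ℂ) (b y.1 * b y.2)‖ ≤ 1 := by
        rw [norm_mul, norm_mul, RCLike.norm_conj, norm_mul]
        calc ‖b x.1‖ * ‖b x.2‖ * (‖b y.1‖ * ‖b y.2‖) ≤ 1 * 1 * (1 * 1) := by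
              gcongr <;> exact hb _
          _ = 1 := by norm_num
      have h8 : ‖wh M ((Real.log x.1 + Real.log x.2) - (Real.log y.1 + Real.log y.2))‖ ≤
          2 * M * phi (2 * N ^ 2 / M) ((x.1 : ℤ) * x.2 - y.1 * y.2) := by
        refine (wh_bound M _ hM).trans ?_
        unfold phi
        rw [mul_one_div]
        apply div_le_div_of_nonneg_left (by positivity) (by positivity)
        have hx1 : (0 : ℝ) < x.1 := by exact_mod_cast hx.1.1
        have hx2 : (0 : ℝ) < x.2 := by exact_mod_cast hx.2.1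
        have hy1 : (0 : ℝ) < y.1 := by exact_mod_cast hy.1.1
        have hy2 : (0 : ℝ) < y.2 := by exact_mod_cast hy.2.1
        have hx1' : (x.1 : ℝ) ≤ N := by exact_mod_cast hx.1.2
        have hx2' : (x.2 : ℝ) ≤ N := by exact_mod_cast hx.2.2
        have hy1' : (y.1 : ℝ) ≤ N := by exact_mod_cast hy.1.2
        have hy2' : (y.2 : ℝ) ≤ N := by exact_mod_cast hy.2.2
        have h9 := log_diff (x.1 * x.2) (y.1 * y.2) (N ^ 2) (by positivity) (by positivity)
          (by nlinarith) (by nlinarith)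
        rw [Real.log_mul hx1.ne' hx2.ne', Real.log_mul hy1.ne' hy2.ne'] at h9
        have h10 : (((((x.1 : ℤ) * x.2 - y.1 * y.2 : ℤ)) : ℝ) / (2 * N ^ 2 / M)) ^ 2 ≤
            (((Real.log x.1 + Real.log x.2) - (Real.log y.1 + Real.log y.2)) * M / 2) ^ 2 := by
          rw [sq_le_sq, abs_div, abs_of_pos (show (0 : ℝ) < 2 * N ^ 2 / M by positivity), abs_div, abs_mul,
            abs_of_pos hM, abs_of_pos (show (0 : ℝ) < 2 by norm_num)]
          push_cast
          calc |(x.1 : ℝ) * x.2 - y.1 * y.2| / (2 * N ^ 2 / M) =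
                (|(x.1 : ℝ) * x.2 - y.1 * y.2| / N ^ 2) * M / 2 := by
                field_simp
            _ ≤ _ := by gcongr
        linarith
      rw [norm_mul, norm_mul, Complex.norm_natCast]
      calc ‖b x.1 * b x.2 * (starRingEnd ℂ) (b y.1 * b y.2)‖ * (q : ℝ) *
            ‖wh M ((Real.log x.1 + Real.log x.2) - (Real.log y.1 + Real.log y.2))‖ ≤
            1 * q * (2 * M * phi (2 * N ^ 2 / M) ((x.1 : ℤ) * x.2 - y.1 * y.2)) := by
            gcongr
        _ = _ := by ring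
    · simp
  have h7 : ∀ f : ℤ × ℤ → ℝ, ∑ x ∈ JJ N ×ˢ JJ N, f x = ∑ x ∈ P, f ((x.1 : ℤ), (x.2 : ℤ)) := by
    intro f
    have h8 : JJ N ×ˢ JJ N = P.image (fun x => ((x.1 : ℤ), (x.2 : ℤ))) := by
      ext z
      rw [mem_product, mem_image, hP]
      unfold JJ
      constructor
      · rintro ⟨hz1, hz2⟩
        rw [mem_Icc] at hz1 hz2
        refine ⟨(z.1.toNat, z.2.toNat), ?_, ?_⟩
        · rw [mem_product, mem_Icc, mem_Icc]
          refine ⟨⟨?_, ?_⟩, ?_, ?_⟩ <;> simp only <;> omega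
        · ext
          · simp only
            omega
          · simp only
            omega
      · rintro ⟨x, hx, rfl⟩
        rw [mem_product, mem_Icc, mem_Icc] at hx
        rw [mem_Icc, mem_Icc]
        refine ⟨⟨?_, ?_⟩, ?_, ?_⟩ <;> simp only <;> omega
    rw [h8, sum_image]
    intro x _ y _ h
    rw [Prod.mk.injEq] at h
    ext
    · exact_mod_cast h.1
    · exact_mod_cast h.2
  rw [h7]
  rw [sum_congr rfl (fun x _ => h7 _)]
  calc ‖∑ x ∈ P, ∑ y ∈ P, (b x.1 * b x.2 * (starRingEnd ℂ) (b y.1 * b y.2)) *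
        (if (q : ℤ) ∣ (x.1 : ℤ) + x.2 - y.1 - y.2 then (q : ℂ) else 0) *
        wh M ((Real.log x.1 + Real.log x.2) - (Real.log y.1 + Real.log y.2))‖ ≤
      ∑ x ∈ P, ∑ y ∈ P, ‖(b x.1 * b x.2 * (starRingEnd ℂ) (b y.1 * b y.2)) *
        (if (q : ℤ) ∣ (x.1 : ℤ) + x.2 - y.1 - y.2 then (q : ℂ) else 0) *
        wh M ((Real.log x.1 + Real.log x.2) - (Real.log y.1 + Real.log y.2))‖ :=
        (norm_sum_le _ _).trans (sum_le_sum fun x _ => norm_sum_le _ _)
    _ ≤ ∑ x ∈ P, ∑ y ∈ P, q * (2 * M) * (if (q : ℤ) ∣ (x.1 : ℤ) + x.2 - y.1 - y.2 then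
        phi (2 * N ^ 2 / M) ((x.1 : ℤ) * x.2 - y.1 * y.2) else 0) :=
        sum_le_sum fun x hx => sum_le_sum fun y hy => h6 x hx y hy
    _ = _ := by
        rw [mul_sum]
        apply sum_congr rfl
        intro x _
        rw [mul_sum]

end Pool.Agent.Q261.DR
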