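import Pool.Agent.Q261.DR.Moment

set_option autoImplicit false

namespace Pool.Agent.Q261.DR

open Finset MeasureTheory

section
open Set

/-- Sobolev inequality on a unit interval -/
lemma sob {f f' : ℝ → ℂ} {a x : ℝ} (hf : ∀ t, HasDerivAt f (f' t) t) (hf' : Continuous f')
    (hx : x ∈ Icc a (a + 1)) :
    ‖f x‖ ^ 2 ≤ ∫ t in a..(a + 1), (2 * ‖f t‖ ^ 2 + ‖f' t‖ ^ 2) := by
  have hfc : Continuous f := continuous_iff_continuousAt.2 fun t => (hf t).continuousAt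
  set g : ℝ → ℝ := fun t => ‖f t‖ ^ 2 with hg
  set h : ℝ → ℝ := fun t => 2 * (‖f t‖ * ‖f' t‖) with hh
  have hgc : Continuous g := by fun_prop
  have hhc : Continuous h := by fun_prop
  have hder : ∀ t, HasDerivAt g (2 * inner ℝ (f t) (f' t)) t := fun t => (hf t).norm_sq
  have hdc : Continuous fun t => 2 * inner ℝ (f t) (f' t) := by
    exact continuous_const.mul (hfc.inner hf')
  have hh0 : ∀ t, 0 ≤ h t := fun t => by simp only [hh]; positivity
  have hdle : ∀ t, |2 * inner ℝ (f t) (f' t)| ≤ h t := by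
    intro t
    simp only [hh]
    rw [abs_mul, abs_two]
    gcongr
    exact abs_real_inner_le_norm _ _
  -- comparison of two points
  have hcmp : ∀ y ∈ Icc a (a + 1), g x ≤ g y + ∫ t in a..(a + 1), h t := by
    intro y hy
    have key : ∀ u v : ℝ, a ≤ u → u ≤ v → v ≤ a + 1 → |g v - g u| ≤ ∫ t in a..(a + 1), h t := by
      intro u v hu huv hv
      have h1 : ∫ t in u..v, 2 * inner ℝ (f t) (f' t) = g v - g u :=
        intervalIntegral.integral_eq_sub_of_hasDerivAt (fun t _ => hder t)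
          (hdc.intervalIntegrable _ _)
      rw [← h1]
      calc |∫ t in u..v, 2 * inner ℝ (f t) (f' t)|
          ≤ ∫ t in u..v, |2 * inner ℝ (f t) (f' t)| :=
            intervalIntegral.abs_integral_le_integral_abs huv
        _ ≤ ∫ t in u..v, h t := by
            refine intervalIntegral.integral_mono_on huv
              (hdc.abs.intervalIntegrable _ _) (hhc.intervalIntegrable _ _) fun t _ => hdle t
        _ ≤ ∫ t in a..(a + 1), h t := by
            refine intervalIntegral.integral_mono_interval hu huv hv ?_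
              (hhc.intervalIntegrable _ _)
            exact Filter.Eventually.of_forall fun t => hh0 t
    rcases le_total x y with hxy | hxy
    · have := key x y hx.1 hxy hy.2
      have := (abs_le.1 this).1
      linarith
    · have := key y x hy.1 hxy hx.2
      have := (abs_le.1 this).2
      linarith
  have hint : g x ≤ ∫ y in a..(a + 1), (g y + ∫ t in a..(a + 1), h t) := by
    have h1 : ∫ y in a..(a + 1), g x = g x := by simp
    rw [← h1]
    refine intervalIntegral.integral_mono_on (by linarith)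
      (continuous_const.intervalIntegrable _ _) ?_ hcmp
    exact (hgc.add continuous_const).intervalIntegrable _ _
  rw [intervalIntegral.integral_add (hgc.intervalIntegrable _ _)
    (continuous_const.intervalIntegrable _ _)] at hint
  simp only [intervalIntegral.integral_const, add_sub_cancel_left, one_smul] at hint
  have h2 : (∫ y in a..(a + 1), g y) + ∫ t in a..(a + 1), h t =
      ∫ t in a..(a + 1), (g t + h t) :=
    (intervalIntegral.integral_add (hgc.intervalIntegrable _ _)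
      (hhc.intervalIntegrable _ _)).symm
  rw [h2] at hint
  refine hint.trans ?_
  refine intervalIntegral.integral_mono_on (by linarith)
    ((hgc.add hhc).intervalIntegrable _ _) ?_ fun t _ => ?_
  · apply Continuous.intervalIntegrable
    fun_prop
  · simp only [hg, hh]
    nlinarith [sq_nonneg (‖f t‖ - ‖f' t‖)]

end

/-- the factor `log N` of the derivative -/
noncomputable def LL (N : ℕ) : ℝ := 1 + Real.log N

lemma LL_ge (N : ℕ) (hN : 1 ≤ N) : 1 ≤ LL N := by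
  unfold LL
  have : 0 ≤ Real.log N := Real.log_nonneg (by exact_mod_cast hN)
  linarith

/-- the coefficients of the derivative -/
noncomputable def bb (N : ℕ) (b : ℕ → ℂ) (n : ℕ) : ℂ := if n ≤ N then b n * ((Real.log n / LL N : ℝ) : ℂ) else 0

lemma bb_norm (N : ℕ) (hN : 1 ≤ N) (b : ℕ → ℂ) (hb : ∀ n, ‖b n‖ ≤ 1) (n : ℕ) : ‖bb N b n‖ ≤ 1 := by
  unfold bb
  split_ifs with h
  · rw [norm_mul, Complex.norm_real, Real.norm_eq_abs]
    have hL := LL_ge N hN
    rcases Nat.eq_zero_or_pos n with h0 | h0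
    · subst h0
      simp
    have h1 : 0 ≤ Real.log n := Real.log_nonneg (by exact_mod_cast h0)
    have h2 : Real.log n ≤ Real.log N := Real.log_le_log (by exact_mod_cast h0) (by exact_mod_cast h)
    have h3 : |Real.log n / LL N| ≤ 1 := by
      rw [abs_of_nonneg (by positivity), div_le_one (by linarith)]
      unfold LL
      linarith
    calc ‖b n‖ * |Real.log n / LL N| ≤ 1 * 1 := by
          gcongr
          exact hb n
      _ = 1 := by norm_num
  · simp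

lemma DD_deriv (N q a : ℕ) (hN : 1 ≤ N) (b : ℕ → ℂ) (t : ℝ) :
    HasDerivAt (DD N q a b) ((LL N : ℂ) * Complex.I * DD N q a (bb N b) t) t := by
  have h1 : ∀ n ∈ Icc 1 N, HasDerivAt (fun t : ℝ => b n * ad q (a * n) *
      Complex.exp (((Real.log n * t : ℝ) : ℂ) * Complex.I))
      (b n * ad q (a * n) * (Complex.exp (((Real.log n * t : ℝ) : ℂ) * Complex.I) *
        ((Real.log n : ℝ) * Complex.I))) t := by
    intro n _
    apply HasDerivAt.const_mul
    have h2 : HasDerivAt (fun t : ℝ => (((Real.log n * t : ℝ) : ℂ) * Complex.I)) ((Real.log n : ℝ) * Complex.I) t := by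
      have h3 : HasDerivAt (fun t : ℝ => Real.log n * t) (Real.log n) t := by
        simpa using (hasDerivAt_id t).const_mul (Real.log n)
      exact h3.ofReal_comp.mul_const Complex.I
    exact h2.cexp
  have h2 := HasDerivAt.fun_sum h1
  have h3 : DD N q a b = fun t : ℝ => ∑ n ∈ Icc 1 N, b n * ad q (a * n) *
      Complex.exp (((Real.log n * t : ℝ) : ℂ) * Complex.I) := rfl
  rw [h3]
  refine h2.congr_deriv ?_
  unfold DD
  rw [mul_sum]
  apply sum_congr rfl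
  intro n hn
  unfold bb
  rw [if_pos (mem_Icc.1 hn).2]
  have hL : (LL N : ℂ) ≠ 0 := by
    have := LL_ge N hN
    exact_mod_cast (by linarith : LL N ≠ 0)
  push_cast
  field_simp

lemma DD_cont (N q a : ℕ) (b : ℕ → ℂ) : Continuous (DD N q a b) := by
  unfold DD
  fun_prop

lemma DD_le (N q a : ℕ) (b : ℕ → ℂ) (hb : ∀ n, ‖b n‖ ≤ 1) (t : ℝ) : ‖DD N q a b t‖ ≤ N := by
  unfold DD
  calc ‖∑ n ∈ Icc 1 N, b n * ad q (a * n) * Complex.exp (((Real.log n * t : ℝ) : ℂ) * Complex.I)‖ ≤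
        ∑ n ∈ Icc 1 N, (1 : ℝ) := by
        apply norm_sum_le_of_le
        intro n _
        rw [norm_mul, norm_mul, ad_norm, Complex.norm_exp_ofReal_mul_I, mul_one, mul_one]
        exact hb n
    _ = N := by simp

/-- the integrand -/
noncomputable def GG (N q a : ℕ) (b : ℕ → ℂ) (t : ℝ) : ℝ :=
  4 * ‖DD N q a b t‖ ^ 4 + 2 * LL N ^ 4 * ‖DD N q a (bb N b) t‖ ^ 4

lemma GG_cont (N q a : ℕ) (b : ℕ → ℂ) : Continuous (GG N q a b) := by
  unfold GG
  have h1 := DD_cont N q a b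
  have h2 := DD_cont N q a (bb N b)
  fun_prop

lemma GG_nonneg (N q a : ℕ) (b : ℕ → ℂ) (t : ℝ) : 0 ≤ GG N q a b t := by
  unfold GG
  positivity

lemma wD_integrable (N q a : ℕ) (b : ℕ → ℂ) (hb : ∀ n, ‖b n‖ ≤ 1) (M : ℝ) (hM : 0 < M) :
    Integrable (fun t => w M t * ‖DD N q a b t‖ ^ 4) := by
  refine ((w_integrable M hM).mul_const ((N : ℝ) ^ 4)).mono' ?_ (Filter.Eventually.of_forall fun t => ?_)
  · have h1 := DD_cont N q a b
    have h2 := w_continuous M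
    exact (Continuous.mul h2 (by fun_prop)).aestronglyMeasurable
  · have h0 : 0 < w M t := Real.exp_pos _
    rw [Real.norm_eq_abs, abs_of_nonneg (by positivity)]
    have := DD_le N q a b hb t
    gcongr

lemma wG_integrable (N q a : ℕ) (hN : 1 ≤ N) (b : ℕ → ℂ) (hb : ∀ n, ‖b n‖ ≤ 1) (M : ℝ) (hM : 0 < M) :
    Integrable (fun t => w M t * GG N q a b t) := by
  have h1 := (wD_integrable N q a b hb M hM).const_mul 4
  have h2 := (wD_integrable N q a (bb N b) (bb_norm N hN b hb) M hM).const_mul (2 * LL N ^ 4)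
  refine (h1.add h2).congr (Filter.Eventually.of_forall fun t => ?_)
  simp only [Pi.add_apply]
  unfold GG
  ring

lemma unit_bound (N q a : ℕ) (hN : 1 ≤ N) (b : ℕ → ℂ) (x u : ℝ) (hx : x ∈ Set.Icc u (u + 1)) :
    ‖DD N q a b x‖ ^ 4 ≤ ∫ t in u..(u + 1), GG N q a b t := by
  have hder : ∀ t, HasDerivAt (fun t => DD N q a b t ^ 2)
      (2 * DD N q a b t * ((LL N : ℂ) * Complex.I * DD N q a (bb N b) t)) t := by
    intro t
    refine (HasDerivAt.fun_pow (DD_deriv N q a hN b t) 2).congr_deriv ?_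
    norm_num
  have hc1 := DD_cont N q a b
  have hc2 := DD_cont N q a (bb N b)
  have hcont : Continuous (fun t => 2 * DD N q a b t * ((LL N : ℂ) * Complex.I * DD N q a (bb N b) t)) := by
    fun_prop
  have h1 := sob hder hcont hx
  have h2 : ‖DD N q a b x‖ ^ 4 = ‖DD N q a b x ^ 2‖ ^ 2 := by
    rw [norm_pow]
    ring
  rw [h2]
  refine h1.trans ?_
  apply intervalIntegral.integral_mono_on (by linarith)
  · apply Continuous.intervalIntegrable
    fun_prop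
  · exact (GG_cont N q a b).intervalIntegrable _ _
  · intro t _
    unfold GG
    rw [norm_pow, norm_mul, norm_mul, norm_mul, norm_mul, Complex.norm_I, Complex.norm_real, Real.norm_eq_abs,
      abs_of_pos (show 0 < LL N by have := LL_ge N hN; linarith), Complex.norm_ofNat]
    nlinarith [sq_nonneg (‖DD N q a b t‖ ^ 2 - (LL N * ‖DD N q a (bb N b) t‖) ^ 2)]

lemma sep_one (N q a : ℕ) (hN : 1 ≤ N) (b : ℕ → ℂ) (hb : ∀ n, ‖b n‖ ≤ 1) (T : ℝ) (hT : 0 ≤ T)
    (S : Finset ℝ) (hS : ∀ t ∈ S, 0 ≤ t ∧ t ≤ T) (hsep : ∀ t ∈ S, ∀ u ∈ S, t ≠ u → 1 ≤ |t - u|) :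
    ∑ t ∈ S, ‖DD N q a b t‖ ^ 4 ≤ 3 * ∫ t : ℝ, w (T + 1) t * GG N q a b t := by
  classical
  have hinj : Set.InjOn (fun t : ℝ => ⌊t⌋₊) S := by
    intro t ht u hu h
    by_contra hne
    have h1 := hsep t ht u hu hne
    have h2 : ⌊t⌋₊ = ⌊u⌋₊ := h
    have h3 := Nat.floor_le (hS t ht).1
    have h4 := Nat.lt_floor_add_one t
    have h5 := Nat.floor_le (hS u hu).1
    have h6 := Nat.lt_floor_add_one u
    rw [h2] at h3 h4
    have h7 : |t - u| < 1 := by
      rw [abs_lt]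
      constructor <;> linarith
    linarith
  have hmono : ∀ m : ℕ, 0 ≤ ∫ t in (m : ℝ)..((m : ℝ) + 1), GG N q a b t := by
    intro m
    apply intervalIntegral.integral_nonneg (by linarith)
    intro t _
    exact GG_nonneg N q a b t
  have h1 : ∑ t ∈ S, ‖DD N q a b t‖ ^ 4 ≤ ∑ m ∈ range (⌊T⌋₊ + 1), ∫ t in (m : ℝ)..((m : ℝ) + 1), GG N q a b t := by
    calc ∑ t ∈ S, ‖DD N q a b t‖ ^ 4 ≤ ∑ t ∈ S, ∫ s in ((⌊t⌋₊ : ℕ) : ℝ)..(((⌊t⌋₊ : ℕ) : ℝ) + 1), GG N q a b s := by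
          apply sum_le_sum
          intro t ht
          apply unit_bound N q a hN b
          exact ⟨Nat.floor_le (hS t ht).1, (Nat.lt_floor_add_one t).le⟩
      _ = ∑ m ∈ S.image (fun t : ℝ => ⌊t⌋₊), ∫ s in (m : ℝ)..((m : ℝ) + 1), GG N q a b s := by
          rw [sum_image hinj]
      _ ≤ _ := by
          apply sum_le_sum_of_subset_of_nonneg
          · intro m hm
            rw [mem_image] at hm
            obtain ⟨t, ht, rfl⟩ := hm
            rw [mem_range]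
            have := Nat.floor_mono (hS t ht).2
            omega
          · intro m _ _
            exact hmono m
  have h2 : ∑ m ∈ range (⌊T⌋₊ + 1), ∫ t in (m : ℝ)..((m : ℝ) + 1), GG N q a b t =
      ∫ t in (0 : ℝ)..((⌊T⌋₊ + 1 : ℕ) : ℝ), GG N q a b t := by
    have h3 := intervalIntegral.sum_integral_adjacent_intervals (μ := volume) (f := GG N q a b)
      (a := fun m : ℕ => (m : ℝ)) (n := ⌊T⌋₊ + 1) (fun m _ => (GG_cont N q a b).intervalIntegrable _ _)
    simpa using h3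
  have hK : ((⌊T⌋₊ + 1 : ℕ) : ℝ) ≤ T + 1 := by
    push_cast
    have := Nat.floor_le hT
    linarith
  have hK0 : (0 : ℝ) ≤ ((⌊T⌋₊ + 1 : ℕ) : ℝ) := by positivity
  have hint := (wG_integrable N q a hN b hb (T + 1) (by linarith)).const_mul 3
  have h3 : ∫ t in (0 : ℝ)..((⌊T⌋₊ + 1 : ℕ) : ℝ), GG N q a b t ≤
      ∫ t in (0 : ℝ)..((⌊T⌋₊ + 1 : ℕ) : ℝ), 3 * (w (T + 1) t * GG N q a b t) := by
    apply intervalIntegral.integral_mono_on hK0
    · exact (GG_cont N q a b).intervalIntegrable _ _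
    · exact hint.intervalIntegrable
    · intro t ht
      have h4 : 1 ≤ 3 * w (T + 1) t := by
        unfold w
        have h5 : (t / (T + 1)) ^ 2 ≤ 1 := by
          rw [div_pow, div_le_one (by positivity)]
          have := ht.1
          have := ht.2
          nlinarith
        have h6 : Real.exp (-1) ≤ Real.exp (-(t / (T + 1)) ^ 2) := Real.exp_le_exp.2 (by linarith)
        have h7 : 1 ≤ 3 * Real.exp (-1) := by
          rw [Real.exp_neg]
          have := Real.exp_one_lt_d9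
          rw [← div_eq_mul_inv, le_div_iff₀ (Real.exp_pos 1)]
          linarith
        linarith
      have h5 := GG_nonneg N q a b t
      nlinarith
  have h4 : ∫ t in (0 : ℝ)..((⌊T⌋₊ + 1 : ℕ) : ℝ), 3 * (w (T + 1) t * GG N q a b t) ≤
      ∫ t : ℝ, 3 * (w (T + 1) t * GG N q a b t) := by
    rw [intervalIntegral.integral_of_le hK0]
    apply setIntegral_le_integral hint
    refine Filter.Eventually.of_forall fun t => ?_
    have h5 := GG_nonneg N q a b t
    have h6 : 0 < w (T + 1) t := Real.exp_pos _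
    show 0 ≤ 3 * (w (T + 1) t * GG N q a b t)
    positivity
  rw [integral_const_mul] at h4
  linarith

/-- the sum over all twists, with a bound `D0` for the divisor function -/
theorem hybrid_D (N q : ℕ) (hN : 1 ≤ N) (hq : 1 ≤ q) (D0 : ℝ) (hD0 : 1 ≤ D0)
    (hD : ∀ k : ℕ, 1 ≤ k → k ≤ N ^ 2 → (k.divisors.card : ℝ) ≤ D0) (T : ℝ) (hT : 1 ≤ T)
    (b : ℕ → ℂ) (hb : ∀ n, ‖b n‖ ≤ 1) (S : ℕ → Finset ℝ) (hS : ∀ a, ∀ t ∈ S a, 0 ≤ t ∧ t ≤ T)
    (hsep : ∀ a, ∀ t ∈ S a, ∀ u ∈ S a, t ≠ u → 1 ≤ |t - u|) :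
    ∑ a ∈ range q, ∑ t ∈ S a, ‖DD N q a b t‖ ^ 4 ≤
      4608 * LL N ^ 4 * D0 * (N : ℝ) ^ 2 * (q * T + q * N + (N : ℝ) ^ 2) := by
  have hNr : (1 : ℝ) ≤ N := by exact_mod_cast hN
  have hqr : (1 : ℝ) ≤ q := by exact_mod_cast hq
  have hM : 0 < T + 1 := by linarith
  have hR : 0 < 2 * (N : ℝ) ^ 2 / (T + 1) := by positivity
  have hL := LL_ge N hN
  have key : ∀ c : ℕ → ℂ, (∀ n, ‖c n‖ ≤ 1) → ∑ a ∈ range q, ∫ t : ℝ, w (T + 1) t * ‖DD N q a c t‖ ^ 4 ≤
      256 * D0 * (N : ℝ) ^ 2 * (q * T + q * N + (N : ℝ) ^ 2) := by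
    intro c hc
    refine (moment N q hN hq (T + 1) hM c hc).trans ?_
    have h1 := count N q hq (2 * (N : ℝ) ^ 2 / (T + 1)) D0 hR hD0 hD
    have h2 : (q : ℝ) * (2 * (T + 1)) * (2 * (N : ℝ) ^ 2 + 4 * N * (4 * N / q + 1) * D0 *
        (1 + 4 * (2 * (N : ℝ) ^ 2 / (T + 1)))) =
        4 * q * (T + 1) * (N : ℝ) ^ 2 + 8 * N * (4 * N + q) * D0 * ((T + 1) + 8 * (N : ℝ) ^ 2) := by
      field_simp
      ring
    calc _ ≤ (q : ℝ) * (2 * (T + 1)) * (2 * (N : ℝ) ^ 2 + 4 * N * (4 * N / q + 1) * D0 *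
        (1 + 4 * (2 * (N : ℝ) ^ 2 / (T + 1)))) := by gcongr
      _ = 4 * q * (T + 1) * (N : ℝ) ^ 2 + 8 * N * (4 * N + q) * D0 * ((T + 1) + 8 * (N : ℝ) ^ 2) := h2
      _ ≤ 4 * q * (2 * T) * (N : ℝ) ^ 2 + 8 * N * (4 * N + q) * D0 * ((2 * T) + 8 * (N : ℝ) ^ 2) := by
          gcongr <;> linarith
      _ = 8 * (q * T * (N : ℝ) ^ 2) + D0 * (64 * (T * (N : ℝ) ^ 2) + 256 * ((N : ℝ) ^ 2 * (N : ℝ) ^ 2) +
            16 * (q * T * N) + 64 * (q * N * (N : ℝ) ^ 2)) := by ring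
      _ ≤ 8 * (D0 * (q * T * (N : ℝ) ^ 2)) + D0 * (64 * (q * T * (N : ℝ) ^ 2) + 256 * ((N : ℝ) ^ 2 * (N : ℝ) ^ 2) +
            16 * (q * T * (N : ℝ) ^ 2) + 64 * (q * N * (N : ℝ) ^ 2)) := by
          have hT0 : 0 ≤ T := by linarith
          have e0 : 0 ≤ q * T * (N : ℝ) ^ 2 := by positivity
          have e1 : q * T * (N : ℝ) ^ 2 ≤ D0 * (q * T * (N : ℝ) ^ 2) := le_mul_of_one_le_left e0 hD0
          have e2 : T * (N : ℝ) ^ 2 ≤ q * T * (N : ℝ) ^ 2 := by
            rw [mul_assoc]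
            exact le_mul_of_one_le_left (by positivity) hqr
          have e3 : (q : ℝ) * T * N ≤ q * T * (N : ℝ) ^ 2 := by
            rw [sq]
            exact mul_le_mul_of_nonneg_left (le_mul_of_one_le_left (by positivity) hNr) (by positivity)
          have e4 : 64 * (T * (N : ℝ) ^ 2) + 256 * ((N : ℝ) ^ 2 * (N : ℝ) ^ 2) + 16 * (q * T * N) +
              64 * (q * N * (N : ℝ) ^ 2) ≤ 64 * (q * T * (N : ℝ) ^ 2) + 256 * ((N : ℝ) ^ 2 * (N : ℝ) ^ 2) +
            16 * (q * T * (N : ℝ) ^ 2) + 64 * (q * N * (N : ℝ) ^ 2) := by linarith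
          have e5 := mul_le_mul_of_nonneg_left e4 (show 0 ≤ D0 by linarith)
          linarith
      _ ≤ 256 * D0 * (N : ℝ) ^ 2 * (q * T + q * N + (N : ℝ) ^ 2) := by
          have h3 : 0 ≤ D0 * (q * T * (N : ℝ) ^ 2) := by positivity
          have h4 : 0 ≤ D0 * (q * N * (N : ℝ) ^ 2) := by positivity
          nlinarith
  have h1 : ∑ a ∈ range q, ∑ t ∈ S a, ‖DD N q a b t‖ ^ 4 ≤
      ∑ a ∈ range q, (3 * ∫ t : ℝ, w (T + 1) t * GG N q a b t) := by
    apply sum_le_sum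
    intro a _
    exact sep_one N q a hN b hb T (by linarith) (S a) (hS a) (hsep a)
  have h2 : ∀ a ∈ range q, (3 * ∫ t : ℝ, w (T + 1) t * GG N q a b t) =
      12 * (∫ t : ℝ, w (T + 1) t * ‖DD N q a b t‖ ^ 4) +
      6 * LL N ^ 4 * (∫ t : ℝ, w (T + 1) t * ‖DD N q a (bb N b) t‖ ^ 4) := by
    intro a _
    have h3 : (∫ t : ℝ, w (T + 1) t * GG N q a b t) =
        4 * (∫ t : ℝ, w (T + 1) t * ‖DD N q a b t‖ ^ 4) +
        2 * LL N ^ 4 * (∫ t : ℝ, w (T + 1) t * ‖DD N q a (bb N b) t‖ ^ 4) := by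
      rw [← integral_const_mul, ← integral_const_mul, ← integral_add
        ((wD_integrable N q a b hb (T + 1) hM).const_mul 4)
        ((wD_integrable N q a (bb N b) (bb_norm N hN b hb) (T + 1) hM).const_mul (2 * LL N ^ 4))]
      congr 1
      ext t
      unfold GG
      ring
    rw [h3]
    ring
  rw [sum_congr rfl h2, sum_add_distrib, ← mul_sum, ← mul_sum] at h1
  have h3 := key b hb
  have h4 := key (bb N b) (bb_norm N hN b hb)
  have hL4 : 1 ≤ LL N ^ 4 := one_le_pow₀ hL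
  set B : ℝ := 256 * D0 * (N : ℝ) ^ 2 * (q * T + q * N + (N : ℝ) ^ 2) with hB
  have hB0 : 0 ≤ B := by positivity
  calc _ ≤ 12 * ∑ a ∈ range q, (∫ t : ℝ, w (T + 1) t * ‖DD N q a b t‖ ^ 4) +
      6 * LL N ^ 4 * ∑ a ∈ range q, (∫ t : ℝ, w (T + 1) t * ‖DD N q a (bb N b) t‖ ^ 4) := h1
    _ ≤ 12 * B + 6 * LL N ^ 4 * B := by gcongr
    _ ≤ 18 * LL N ^ 4 * B := by nlinarith
    _ = _ := by rw [hB]; ring

/-- **The hybrid fourth moment with additive twists.** -/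
theorem hybrid (ε : ℝ) (hε : 0 < ε) : ∃ C : ℝ, 0 < C ∧ ∀ (N q : ℕ), 1 ≤ N → 1 ≤ q → ∀ T : ℝ, 1 ≤ T →
    ∀ b : ℕ → ℂ, (∀ n, ‖b n‖ ≤ 1) → ∀ S : ℕ → Finset ℝ, (∀ a, ∀ t ∈ S a, 0 ≤ t ∧ t ≤ T) →
    (∀ a, ∀ t ∈ S a, ∀ u ∈ S a, t ≠ u → 1 ≤ |t - u|) →
    ∑ a ∈ range q, ∑ t ∈ S a, ‖DD N q a b t‖ ^ 4 ≤
      C * (N : ℝ) ^ ε * (N : ℝ) ^ 2 * (q * T + q * N + (N : ℝ) ^ 2) := by
  obtain ⟨C1, hC1, hdiv⟩ := Pool.Agent.H510R2.divisor_bound (ε / 4) (by positivity)
  have hC11 : 1 ≤ C1 := by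
    have := hdiv 1 (le_refl _)
    simpa using this
  refine ⟨4608 * (1 + 1 / (ε / 8)) ^ 4 * C1, by positivity, ?_⟩
  intro N q hN hq T hT b hb S hS hsep
  have hNr : (1 : ℝ) ≤ N := by exact_mod_cast hN
  have hN0 : (0 : ℝ) < N := by linarith
  have hD : ∀ k : ℕ, 1 ≤ k → k ≤ N ^ 2 → (k.divisors.card : ℝ) ≤ C1 * (N : ℝ) ^ (ε / 2) := by
    intro k hk hkN
    refine (hdiv k hk).trans ?_
    apply mul_le_mul_of_nonneg_left _ hC1.le
    have h1 : (k : ℝ) ^ (ε / 4) ≤ ((N : ℝ) ^ 2) ^ (ε / 4) := by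
      apply Real.rpow_le_rpow (by positivity) (by exact_mod_cast hkN) (by positivity)
    refine h1.trans (le_of_eq ?_)
    rw [← Real.rpow_natCast, ← Real.rpow_mul hN0.le]
    congr 1
    push_cast
    ring
  have hD0 : 1 ≤ C1 * (N : ℝ) ^ (ε / 2) := by
    have : 1 ≤ (N : ℝ) ^ (ε / 2) := Real.one_le_rpow hNr (by positivity)
    nlinarith
  have h1 := hybrid_D N q hN hq (C1 * (N : ℝ) ^ (ε / 2)) hD0 hD T hT b hb S hS hsep
  refine h1.trans ?_
  have hL : LL N ≤ (1 + 1 / (ε / 8)) * (N : ℝ) ^ (ε / 8) := by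
    unfold LL
    have h2 := Real.log_le_rpow_div hN0.le (show 0 < ε / 8 by positivity)
    have h3 : 1 ≤ (N : ℝ) ^ (ε / 8) := Real.one_le_rpow hNr (by positivity)
    have h4 : (1 + 1 / (ε / 8)) * (N : ℝ) ^ (ε / 8) = (N : ℝ) ^ (ε / 8) + (N : ℝ) ^ (ε / 8) / (ε / 8) := by ring
    linarith
  have hL1 := LL_ge N hN
  have hL4 : LL N ^ 4 ≤ (1 + 1 / (ε / 8)) ^ 4 * (N : ℝ) ^ (ε / 2) := by
    calc LL N ^ 4 ≤ ((1 + 1 / (ε / 8)) * (N : ℝ) ^ (ε / 8)) ^ 4 := by gcongr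
      _ = (1 + 1 / (ε / 8)) ^ 4 * ((N : ℝ) ^ (ε / 8)) ^ 4 := by rw [mul_pow]
      _ = _ := by
        congr 1
        rw [← Real.rpow_natCast, ← Real.rpow_mul hN0.le]
        congr 1
        push_cast
        ring
  have h5 : (N : ℝ) ^ ε = (N : ℝ) ^ (ε / 2) * (N : ℝ) ^ (ε / 2) := by
    rw [← Real.rpow_add hN0]
    congr 1
    ring
  have hX : 0 ≤ (N : ℝ) ^ 2 * (q * T + q * N + (N : ℝ) ^ 2) := by positivity
  calc 4608 * LL N ^ 4 * (C1 * (N : ℝ) ^ (ε / 2)) * (N : ℝ) ^ 2 * (q * T + q * N + (N : ℝ) ^ 2)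
      = LL N ^ 4 * (4608 * C1 * (N : ℝ) ^ (ε / 2) * ((N : ℝ) ^ 2 * (q * T + q * N + (N : ℝ) ^ 2))) := by ring
    _ ≤ ((1 + 1 / (ε / 8)) ^ 4 * (N : ℝ) ^ (ε / 2)) *
        (4608 * C1 * (N : ℝ) ^ (ε / 2) * ((N : ℝ) ^ 2 * (q * T + q * N + (N : ℝ) ^ 2))) := by gcongr
    _ = _ := by rw [h5]; ring

end Pool.Agent.Q261.DR
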